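import Mathlib
set_option autoImplicit false

namespace Pool.Agent.Results.MP_31efb7_an.BoundFails

open Filter Topology Real

/-- `ν` is a complete `p`-norm on the real vector space `Y`. -/
structure IsPBanach (p : ℝ) (Y : Type) [AddCommGroup Y] [Module ℝ Y] (ν : Y → ℝ) : Prop where
  nonneg : ∀ y, 0 ≤ ν y
  eq_zero : ∀ y, ν y = 0 → y = 0
  smul : ∀ (c : ℝ) y, ν (c • y) = |c| * ν y
  add : ∀ x y, ν (x + y) ^ p ≤ ν x ^ p + ν y ^ p
  complete : ∀ u : ℕ → Y, (∀ ε > 0, ∃ N, ∀ m ≥ N, ∀ n ≥ N, ν (u m - u n) < ε) →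
    ∃ y, Tendsto (fun n => ν (u n - y)) atTop (𝓝 0)

/-- `d` is nonnegative and `d ^ q` is a metric. -/
def IsQMetric (q : ℝ) {M : Type} (d : M → M → ℝ) : Prop :=
  (∀ x y, 0 ≤ d x y) ∧ (∀ x y, d x y = 0 ↔ x = y) ∧ (∀ x y, d x y = d y x) ∧
    ∀ x y z, d x z ^ q ≤ d x y ^ q + d y z ^ q

/-- The norm of `∑ a x δ(x)` (with `a` supported in `N`) in the Lipschitz-free `p`-space over the
subset `N` with base point `o`. -/
noncomputable def freeNorm (p : ℝ) {M : Type} [Fintype M] (d : M → M → ℝ) (o : M) (N : Set M)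
    (a : M → ℝ) : ℝ :=
  sSup {r | ∃ (Y : Type) (_ : AddCommGroup Y) (_ : Module ℝ Y) (ν : Y → ℝ) (f : M → Y),
    IsPBanach p Y ν ∧ f o = 0 ∧ (∀ x ∈ N, ∀ y ∈ N, ν (f x - f y) ≤ d x y) ∧ r = ν (∑ x, a x • f x)}

lemma sum_le {p : ℝ} (hp : 0 < p) {Y ι : Type} [AddCommGroup Y] [Module ℝ Y] {ν : Y → ℝ}
    (h : IsPBanach p Y ν) (s : Finset ι) (y : ι → Y) :
    ν (∑ i ∈ s, y i) ^ p ≤ ∑ i ∈ s, ν (y i) ^ p := by
  classical
  induction s using Finset.induction_on with
  | empty =>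
    have := h.smul 0 0
    simp only [zero_smul, abs_zero, zero_mul] at this
    simp [this, hp.ne']
  | insert a s ha ih => rw [Finset.sum_insert ha, Finset.sum_insert ha]; linarith [h.add (y a) (∑ i ∈ s, y i)]

lemma le_root {p a b : ℝ} (hp : 0 < p) (ha : 0 ≤ a) (h : a ^ p ≤ b) : a ≤ b ^ p⁻¹ := by
  rw [← rpow_rpow_inv ha hp.ne']
  exact rpow_le_rpow (by positivity) h (by positivity)

lemma bdd {p : ℝ} (hp : 0 < p) {M : Type} [Fintype M] (d : M → M → ℝ) (o : M) (N : Set M)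
    (a : M → ℝ) (ho : o ∈ N) (ha : ∀ x ∉ N, a x = 0) : BddAbove
    {r | ∃ (Y : Type) (_ : AddCommGroup Y) (_ : Module ℝ Y) (ν : Y → ℝ) (f : M → Y),
    IsPBanach p Y ν ∧ f o = 0 ∧ (∀ x ∈ N, ∀ y ∈ N, ν (f x - f y) ≤ d x y) ∧
      r = ν (∑ x, a x • f x)} := by
  refine ⟨(∑ x, (|a x| * d x o) ^ p) ^ p⁻¹, ?_⟩
  rintro r ⟨Y, _, _, ν, f, h, h0, hf, rfl⟩
  refine le_root hp (h.nonneg _) ((sum_le hp h _ _).trans (Finset.sum_le_sum fun x _ => ?_))
  refine rpow_le_rpow (h.nonneg _) ?_ hp.le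
  rw [h.smul]
  by_cases hx : x ∈ N
  · have := hf x hx o ho
    rw [h0, sub_zero] at this
    gcongr
  · simp [ha x hx]

lemma mk_norm {p : ℝ} (hp : 0 < p) {L : Type} [Fintype L] (Ψ : (L → ℝ) → ℝ) (C : ℝ)
    (h0 : ∀ v, 0 ≤ Ψ v) (h1 : ∀ v w, Ψ (v + w) ≤ Ψ v + Ψ w) (h2 : ∀ v, Ψ v ≤ C * ‖v‖ ^ p)
    (hC : 0 ≤ C) (h3 : ∀ v x, v x = 1 → 1 ≤ Ψ v) :
    ∃ ν, IsPBanach p (L → ℝ) ν ∧ (∀ v B, 0 ≤ B → (∀ s : ℝ, Ψ (s • v) ≤ B ^ p * |s| ^ p) → ν v ≤ B) ∧
      ∀ v, Ψ v ≤ ν v ^ p := by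
  let Φ : (L → ℝ) → ℝ := fun v => ⨆ s : ℝ, Ψ (s • v) / |s| ^ p
  have dv : ∀ (v : L → ℝ) (B s : ℝ), 0 ≤ B → Ψ (s • v) ≤ B * |s| ^ p → Ψ (s • v) / |s| ^ p ≤ B :=
    fun v B s hB h => div_le_of_le_mul₀ (by positivity) hB h
  have ub : ∀ (v : L → ℝ) (s : ℝ), Ψ (s • v) ≤ C * ‖v‖ ^ p * |s| ^ p := fun v s => by
    refine (h2 _).trans_eq ?_
    rw [norm_smul, mul_rpow (norm_nonneg _) (norm_nonneg _), norm_eq_abs]; ring
  have le : ∀ v B, 0 ≤ B → (∀ s : ℝ, Ψ (s • v) ≤ B * |s| ^ p) → Φ v ≤ B := fun v B hB h =>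
    ciSup_le fun s => dv v B s hB (h s)
  have nn : ∀ v, 0 ≤ Φ v := fun v => Real.iSup_nonneg fun s => div_nonneg (h0 _) (by positivity)
  have sp : ∀ (v : L → ℝ) (s : ℝ), Ψ (s • v) ≤ Φ v * |s| ^ p := fun v s => by
    by_cases hs : s = 0
    · have := ub v s
      rw [hs] at *
      simpa [hp.ne'] using this
    · have : Ψ (s • v) / |s| ^ p ≤ Φ v := le_ciSup (f := fun s : ℝ => Ψ (s • v) / |s| ^ p)
        ⟨C * ‖v‖ ^ p, by rintro _ ⟨t, rfl⟩; exact dv v _ t (by positivity) (ub v t)⟩ s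
      rwa [div_le_iff₀ (by positivity)] at this
  have pw : ∀ v, (Φ v ^ p⁻¹) ^ p = Φ v := fun v => rpow_inv_rpow (nn v) hp.ne'
  have nn' : ∀ v, 0 ≤ Φ v ^ p⁻¹ := fun v => rpow_nonneg (nn v) _
  have le' : ∀ v B, 0 ≤ B → (∀ s : ℝ, Ψ (s • v) ≤ B ^ p * |s| ^ p) → Φ v ^ p⁻¹ ≤ B :=
    fun v B hB h => by
      rw [← rpow_le_rpow_iff (nn' v) hB hp, pw]; exact le v _ (by positivity) h
  have sm : ∀ (c : ℝ) v, Φ (c • v) ^ p⁻¹ ≤ |c| * Φ v ^ p⁻¹ := fun c v =>
    le' _ _ (mul_nonneg (abs_nonneg _) (nn' v)) fun s => by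
      rw [smul_smul, mul_rpow (abs_nonneg _) (nn' v), pw]
      refine (sp v _).trans_eq ?_
      rw [abs_mul, mul_rpow (abs_nonneg _) (abs_nonneg _)]; ring
  have lo : ∀ v, ‖v‖ ≤ Φ v ^ p⁻¹ := fun v => by
    refine (pi_norm_le_iff_of_nonneg (nn' v)).mpr fun x => ?_
    by_cases hx : v x = 0
    · simpa [hx] using nn' v
    refine le_root hp (norm_nonneg _) ?_
    have := (h3 ((v x)⁻¹ • v) x (by simp [hx])).trans (sp v _)
    rwa [abs_inv, inv_rpow (abs_nonneg _), ← div_eq_mul_inv, le_div_iff₀ (by positivity),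
      one_mul] at this
  have up : ∀ v, Φ v ^ p⁻¹ ≤ C ^ p⁻¹ * ‖v‖ := fun v => le' _ _ (by positivity) fun s => by
    rw [mul_rpow (by positivity) (norm_nonneg _), rpow_inv_rpow hC hp.ne']; exact ub v s
  refine ⟨fun v => Φ v ^ p⁻¹, ⟨nn', fun v h => ?_, fun c v => ?_, fun v w => ?_, fun u hu => ?_⟩,
    le', fun v => ?_⟩
  · exact norm_le_zero_iff.mp ((lo v).trans_eq h)
  · refine le_antisymm (sm c v) ?_
    by_cases hc : c = 0
    · simpa [hc] using nn' 0
    have := sm c⁻¹ (c • v)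
    rwa [smul_smul, inv_mul_cancel₀ hc, one_smul, abs_inv, ← div_eq_inv_mul,
      le_div_iff₀ (by positivity), mul_comm] at this
  · rw [pw, pw, pw]
    refine le _ _ (add_nonneg (nn v) (nn w)) fun s => ?_
    rw [smul_add, add_mul]
    linarith [h1 (s • v) (s • w), sp v s, sp w s]
  · obtain ⟨y, hy⟩ := cauchySeq_tendsto_of_complete (u := u) (Metric.cauchySeq_iff.mpr
      fun ε hε => let ⟨N, hN⟩ := hu ε hε; ⟨N, fun m hm n hn => by
        rw [dist_eq_norm]; exact (lo _).trans_lt (hN m hm n hn)⟩)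
    refine ⟨y, squeeze_zero (fun n => nn' _) (fun n => up _) ?_⟩
    simpa using (tendsto_iff_norm_sub_tendsto_zero.mp hy).const_mul (C ^ p⁻¹)
  · have := sp v 1
    rw [pw]; simpa using this

def m (t : ℝ) : ℝ := min (max t 0) 1
def G {L : Type} [Fintype L] (v : L → ℝ) : ℝ := ∑ x, m (v x)

lemma m_nn (t : ℝ) : 0 ≤ m t := le_min (le_max_right _ _) zero_le_one
lemma G_nn {L : Type} [Fintype L] (v : L → ℝ) : 0 ≤ G v := Finset.sum_nonneg fun _ _ => m_nn _
lemma G_add {L : Type} [Fintype L] (v w : L → ℝ) : G (v + w) ≤ G v + G w := by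
  rw [G, G, G, ← Finset.sum_add_distrib]
  refine Finset.sum_le_sum fun x _ => ?_
  simp only [m, Pi.add_apply, min_def, max_def]
  split_ifs <;> linarith
lemma min_le_pow {p t : ℝ} (hp : 0 < p) (hp1 : p ≤ 1) (ht : 0 ≤ t) : min t 1 ≤ t ^ p := by
  rcases le_total t 1 with h | h
  · rw [min_eq_left h]; exact self_le_rpow_of_le_one ht h hp1
  · rw [min_eq_right h]; exact one_le_rpow h hp.le
lemma G_le {p : ℝ} (hp : 0 < p) (hp1 : p ≤ 1) {L : Type} [Fintype L] (v : L → ℝ) (B : ℝ)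
    (h : ∀ x, |v x| ≤ B) : G v ≤ Fintype.card L * B ^ p := by
  rw [G, ← nsmul_eq_mul, ← Finset.card_univ]
  refine Finset.sum_le_card_nsmul _ _ _ fun x _ => ?_
  refine le_trans ?_ ((min_le_pow hp hp1 (abs_nonneg (v x))).trans
    (rpow_le_rpow (abs_nonneg _) (h x) hp.le))
  exact min_le_min_right _ (max_le (le_abs_self _) (abs_nonneg _))
lemma G_mol {L : Type} [Fintype L] [DecidableEq L] (x y : L) (s : ℝ) :
    G (s • (Pi.single x 1 - Pi.single y 1 : L → ℝ)) ≤ min |s| 1 := by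
  have h : ∀ (x : L) (s : ℝ), G (s • (Pi.single x 1 : L → ℝ)) = m s := fun x s => by
    rw [G, Finset.sum_eq_single x]
    · simp
    · intro y _ hy; simp [hy, m]
    · simp
  rw [smul_sub, sub_eq_add_neg, ← neg_smul]
  refine (G_add _ _).trans ?_
  rw [h, h]
  simp only [m, min_def, max_def]
  rcases abs_cases s with h | h <;> split_ifs <;> linarith

lemma scal {p A k t : ℝ} (hp : 0 < p) (hp1 : p ≤ 1) (hA : 1 ≤ A) (hk : 1 < k) (ht : 0 ≤ t)
    (h : A ^ 2 * k ^ p ≤ (A ^ 2 - A) * k) :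
    A * min t 1 + (A ^ 2 * k ^ p - A) * min (t / k) 1 ≤ A ^ 2 * t ^ p := by
  have k1 : 1 ≤ k ^ p := one_le_rpow hk.le hp.le
  have k0 : 0 < k := by linarith
  have hW : (A ^ 2 * k ^ p - A) / k ≤ A ^ 2 - A := by rw [div_le_iff₀ k0]; linarith
  rcases le_total k t with h1 | h1
  · rw [min_eq_right (by linarith), min_eq_right ((one_le_div k0).mpr h1)]
    have := rpow_le_rpow k0.le h1 hp.le
    nlinarith
  rw [min_eq_left ((div_le_one k0).mpr h1), show (A ^ 2 * k ^ p - A) * (t / k) =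
    (A ^ 2 * k ^ p - A) / k * t by ring]
  have e : (A ^ 2 * k ^ p - A) / k * k = A ^ 2 * k ^ p - A := div_mul_cancel₀ _ k0.ne'
  generalize (A ^ 2 * k ^ p - A) / k = w at *
  rcases le_total t 1 with h2 | h2
  · rw [min_eq_left h2]
    have := self_le_rpow_of_le_one ht h2 hp1
    nlinarith
  rw [min_eq_right h2]
  obtain ⟨b, hb0, hb1, rfl⟩ : ∃ b : ℝ, 0 ≤ b ∧ b ≤ 1 ∧ t = (1 - b) * 1 + b * k :=
    ⟨(t - 1) / (k - 1), div_nonneg (by linarith) (by linarith), (div_le_one (by linarith)).mpr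
      (by linarith), by have : k - 1 ≠ 0 := by linarith
                        field_simp; ring⟩
  have c := (Real.concaveOn_rpow hp.le hp1).2 (Set.mem_Ici.mpr zero_le_one) (Set.mem_Ici.mpr k0.le)
    (sub_nonneg.mpr hb1) hb0 (by ring)
  simp only [smul_eq_mul, one_rpow] at c
  nlinarith [mul_le_mul_of_nonneg_left c (sq_nonneg A), mul_le_mul_of_nonneg_left hW
    (sub_nonneg.mpr hb1)]

open Classical in
noncomputable def star {α : Type} (w : α → ℕ) (u v : α) : ℕ := if u = v then 0 else w u + w v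

lemma star_tri {α : Type} (w : α → ℕ) (u v z : α) : star w u z ≤ star w u v + star w v z := by
  unfold star; split_ifs <;> subst_vars <;> first | omega | contradiction
lemma star_symm {α : Type} (w : α → ℕ) (u v : α) : star w u v = star w v u := by
  unfold star; split_ifs <;> subst_vars <;> first | omega | contradiction

abbrev MM (a b : ℕ) := Option (Option (Fin b) × Option (Fin (a + 1)))

def lf {a b : ℕ} : MM a b → ℕ
  | some (_, some _) => 1
  | _ => 0

noncomputable def D {a b : ℕ} (x y : MM a b) : ℕ :=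
  star (fun c => c.elim 0 fun _ => 1) (x.map Prod.fst) (y.map Prod.fst) + star lf x y

lemma D_pos {a b : ℕ} (x y : MM a b) (h : x ≠ y) : 1 ≤ D x y := by
  rcases x with _ | ⟨i, _ | j⟩ <;> rcases y with _ | ⟨i', _ | j'⟩ <;> simp_all [D, star, lf] <;>
    split_ifs <;> simp_all

def T {a b : ℕ} : (Option (Fin b) × Fin (a + 1) → ℝ) →ₗ[ℝ] (Option (Fin b) → ℝ) where
  toFun v i := ∑ j, v (i, j)
  map_add' v w := by ext; simp [Finset.sum_add_distrib]
  map_smul' c v := by ext; simp [Finset.mul_sum]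

lemma T_single {a b : ℕ} (x : Option (Fin b) × Fin (a + 1)) :
    T (Pi.single x 1) = Pi.single x.1 1 := by
  ext i
  obtain ⟨c, j⟩ := x
  by_cases h : i = c <;> simp [T, Pi.single_apply, h]

def aa {a b : ℕ} : MM a b → ℝ
  | some (some _, some _) => 1
  | _ => 0

lemma sum_aa {a b : ℕ} {Y : Type} [AddCommGroup Y] [Module ℝ Y] (f : MM a b → Y) :
    ∑ x, aa x • f x = ∑ i, ∑ j, f (some (some i, some j)) := by
  simp [Fintype.sum_option, Fintype.sum_prod_type, aa]

theorem result (p q : ℝ) (hp : 0 < p) (hpq : p ≤ q) (hq : q ≤ 1) (hp1 : p < 1) :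
    ∃ (M : Type) (_ : Fintype M) (d : M → M → ℝ) (o : M) (N : Set M) (a : M → ℝ),
      IsQMetric q d ∧ o ∈ N ∧ (∀ x ∉ N, a x = 0) ∧ 0 < freeNorm p d o Set.univ a ∧
        2 ^ (1 / q) < freeNorm p d o N a / freeNorm p d o Set.univ a := by
  have hq0 : 0 < q := by linarith
  obtain ⟨A, hA⟩ : ∃ A : ℝ, A = (2 ^ q⁻¹) ^ p := ⟨_, rfl⟩
  have A1 : 1 < A := hA ▸ one_lt_rpow (one_lt_rpow one_lt_two (by positivity)) hp
  have hA4 : ((4 : ℝ) ^ q⁻¹) ^ p = A ^ 2 := by
    rw [show (4 : ℝ) = 2 * 2 by norm_num, mul_rpow zero_le_two zero_le_two,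
      mul_rpow (by positivity) (by positivity), ← hA, sq]
  have t1 := (tendsto_rpow_atTop hp).comp tendsto_natCast_atTop_atTop
  have t2 := (tendsto_rpow_atTop (sub_pos.mpr hp1)).comp tendsto_natCast_atTop_atTop
  have sp : ∀ k : ℝ, 0 < k → k ^ p * k ^ (1 - p) = k := fun k hk => by
    rw [← rpow_add hk]; simp
  obtain ⟨k, ⟨k1, k2⟩, k3⟩ := (((t1.eventually_ge_atTop (2 / (A - 1))).and
    (t2.eventually_ge_atTop (A / (A - 1)))).and (eventually_ge_atTop 2)).exists
  obtain ⟨a, rfl⟩ : ∃ a, k = a + 1 := ⟨k - 1, by omega⟩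
  simp only [Function.comp] at k1 k2
  obtain ⟨k, hk⟩ : ∃ k : ℝ, k = (a + 1 : ℕ) := ⟨_, rfl⟩
  have k4 : 1 < k := by rw [hk]; exact_mod_cast k3
  rw [← hk, div_le_iff₀ (by linarith)] at k1 k2
  obtain ⟨b, b1, b2⟩ := ((t2.eventually_gt_atTop (A * k ^ p)).and (eventually_ge_atTop 1)).exists
  simp only [Function.comp] at b1
  have b0 : (0 : ℝ) < b := by exact_mod_cast b2
  have kp : 1 ≤ k ^ p := one_le_rpow k4.le hp.le
  have hW : 0 ≤ A ^ 2 * k ^ p - A := by nlinarith
  have hc : A ^ 2 * k ^ p ≤ (A ^ 2 - A) * k := by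
    have := sp k (by linarith)
    nlinarith [mul_le_mul_of_nonneg_left k2 (by positivity : 0 ≤ A * k ^ p)]
  let d : MM a b → MM a b → ℝ := fun x y => (D x y : ℝ) ^ q⁻¹
  let o : MM a b := some (none, some 0)
  let N : Set (MM a b) := {x | lf x = 1}
  have hN : ∀ x ∉ N, aa x = 0 := by
    rintro (_ | ⟨_ | i, _ | j⟩) h <;> first | rfl | exact absurd rfl h
  obtain ⟨ν, hν, n1, n2⟩ := mk_norm hp (L := Option (Fin b) × Fin (a + 1))
    (fun v => A * G v + (A ^ 2 * k ^ p - A) * G (k⁻¹ • T v))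
    (A * Fintype.card (Option (Fin b) × Fin (a + 1)) +
      (A ^ 2 * k ^ p - A) * Fintype.card (Option (Fin b)))
    (fun v => by have := G_nn v; have := G_nn (k⁻¹ • T v); positivity)
    (fun v w => by
      rw [map_add, smul_add]
      nlinarith [G_add v w, G_add (k⁻¹ • T v) (k⁻¹ • T w)])
    (fun v => by
      have e1 := G_le hp hp1.le v ‖v‖ (fun x => norm_le_pi_norm v x)
      have e2 := G_le hp hp1.le (k⁻¹ • T v) ‖v‖ (fun i => by
        have := (Finset.abs_sum_le_sum_abs _ _).trans (Finset.sum_le_card_nsmul Finset.univ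
          (fun j => |v (i, j)|) ‖v‖ fun j _ => norm_le_pi_norm v (i, j))
        rw [Finset.card_univ, Fintype.card_fin, nsmul_eq_mul, ← hk] at this
        rw [Pi.smul_apply, smul_eq_mul, abs_mul, abs_of_pos (by positivity), ← div_eq_inv_mul,
          div_le_iff₀' (by positivity)]
        exact this)
      nlinarith)
    (by positivity)
    (fun v x h => by
      have : m (v x) ≤ G v := Finset.single_le_sum (f := fun x => m (v x)) (fun _ _ => m_nn _)
        (Finset.mem_univ x)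
      rw [h, show m 1 = 1 by simp [m]] at this
      nlinarith [G_nn (k⁻¹ • T v)])
  have dq : ∀ x y, d x y ^ q = D x y := fun x y => rpow_inv_rpow (Nat.cast_nonneg _) hq0.ne'
  have d0 : ∀ x y, 0 ≤ d x y := fun x y => rpow_nonneg (Nat.cast_nonneg _) _
  have dxx : ∀ x, d x x = 0 := fun x => by simp [d, D, star, hq0.ne']
  have d1 : ∀ x y, x ≠ y → 1 ≤ d x y := fun x y h =>
    one_le_rpow (by exact_mod_cast D_pos x y h) (by positivity)
  have pos : 0 < freeNorm p d o Set.univ aa := by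
    have h1 : ν 1 ≠ 0 := fun h => one_ne_zero (hν.eq_zero 1 h)
    have h2 := abs_of_nonneg (hν.nonneg 1)
    refine lt_of_lt_of_le ?_ (le_csSup (bdd hp d o _ aa trivial (by simp)) ⟨_, inferInstance,
      inferInstance, ν, fun x => ((if x = o then 0 else 1) * (ν 1)⁻¹) • 1, hν, by simp,
      fun x _ y _ => ?_, rfl⟩)
    · rw [sum_aa]
      simp only [← Finset.sum_smul, hν.smul]
      have := lt_of_le_of_ne (hν.nonneg 1) h1.symm
      simp [o]
      positivity
    · rw [← sub_smul, hν.smul, ← sub_mul, abs_mul, abs_inv, h2, inv_mul_cancel_right₀ h1]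
      by_cases h : x = y
      · simpa [h] using d0 y y
      · refine le_trans ?_ (d1 x y h)
        split_ifs <;> simp
  have up : freeNorm p d o Set.univ aa ≤ (b * k + b * k ^ p + (b * k) ^ p * A) ^ p⁻¹ := by
    refine Real.sSup_le ?_ (by positivity)
    rintro r ⟨Y, _, _, μ, f, h, h0, hf, rfl⟩
    refine le_root hp (h.nonneg _) ?_
    have e : ∑ i, ∑ j, f (some (some i, some j)) =
        ∑ i, ∑ j, (f (some (some i, some j)) - f (some (some i, none))) +
        ∑ i, k • (f (some (some i, none)) - f none) + (b * k) • (f none - f o) := by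
      simp only [h0, hk, Finset.sum_sub_distrib, smul_sub, Finset.sum_const, Finset.card_univ,
        Fintype.card_fin, ← Nat.cast_smul_eq_nsmul ℝ, smul_smul, sub_zero]
      abel
    have l : ∀ x y (c : ℝ), d x y = c → μ (f x - f y) ^ p ≤ c ^ p := fun x y c e =>
      rpow_le_rpow (h.nonneg _) ((hf x trivial y trivial).trans_eq e) hp.le
    rw [sum_aa, e]
    refine (h.add _ _).trans (add_le_add ((h.add _ _).trans (add_le_add ?_ ?_)) ?_)
    · refine (sum_le hp h _ _).trans ((Finset.sum_le_card_nsmul _ _ k fun i _ =>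
        (sum_le hp h _ _).trans ((Finset.sum_le_card_nsmul _ _ 1 fun j _ => ?_).trans_eq
          (by simp [hk]))).trans_eq (by simp))
      simpa using l _ _ 1 (by simp [d, D, star, lf])
    · refine (sum_le hp h _ _).trans ((Finset.sum_le_card_nsmul _ _ (k ^ p) fun i _ => ?_).trans_eq
        (by simp))
      rw [h.smul, abs_of_pos (by positivity), mul_rpow (by positivity) (h.nonneg _)]
      refine mul_le_of_le_one_right (by positivity) ?_
      simpa using l _ _ 1 (by simp [d, D, star, lf])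
    · rw [h.smul, abs_of_pos (by positivity), mul_rpow (by positivity) (h.nonneg _), hA]
      refine mul_le_mul_of_nonneg_left (l _ _ (2 ^ q⁻¹) ?_) (by positivity)
      simp [d, o, D, star, lf]; norm_num
  let f : MM a b → (Option (Fin b) × Fin (a + 1) → ℝ) := fun x => match x with
    | some (i, some j) => Pi.single (i, j) 1 - Pi.single (none, 0) 1
    | _ => 0
  have low : ν (∑ x, aa x • f x) ≤ freeNorm p d o N aa := by
    refine le_csSup (bdd hp d o N aa rfl hN) ⟨_, inferInstance, inferInstance, ν, f, hν,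
      sub_self _, ?_, rfl⟩
    rintro (_ | ⟨i, _ | j⟩) hx (_ | ⟨i', _ | j'⟩) hy <;> try cases hx <;> try cases hy
    refine n1 _ _ (d0 _ _) fun s => ?_
    simp only [f, sub_sub_sub_cancel_right]
    rw [map_smul, map_sub, T_single, T_single]
    have g1 := G_mol (i, j) (i', j') s
    have g2 := G_mol i i' (k⁻¹ * s)
    have g3 := min_le_pow hp hp1.le (abs_nonneg s)
    by_cases h : i = i'
    · subst h
      by_cases h : j = j'
      · subst h
        simp only [sub_self, smul_zero, G, Pi.zero_apply, show m 0 = 0 by simp [m]]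
        simp only [Finset.sum_const_zero, mul_zero, add_zero]
        have := d0 (some (i, some j)) (some (i, some j))
        positivity
      · rw [show d (some (i, some j)) (some (i, some j')) = 2 ^ q⁻¹ by
          simp [d, D, star, lf, h]; norm_num, ← hA]
        simp only [sub_self, smul_zero, show G (0 : Option (Fin b) → ℝ) = 0 by simp [G, m]]
        nlinarith
    · rw [show d (some (i, some j)) (some (i', some j')) = 4 ^ q⁻¹ by
          simp [d, D, star, lf, h]; norm_num, hA4]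
      rw [abs_mul, abs_of_pos (by positivity : 0 < k⁻¹), ← div_eq_inv_mul |s|] at g2
      have g4 := mul_le_mul_of_nonneg_left g1 (by linarith : 0 ≤ A)
      have g5 := mul_le_mul_of_nonneg_left g2 hW
      rw [smul_smul]
      dsimp only
      linarith [scal hp hp1.le A1.le k4 (abs_nonneg s) hc]
  have low2 : A * (b * k) + (A ^ 2 * k ^ p - A) * b ≤ ν (∑ x, aa x • f x) ^ p := by
    refine le_trans ?_ (n2 _)
    have hv : ∀ i j, (∑ x, aa x • f x) (some i, j) = 1 := fun i j => by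
      rw [sum_aa]
      simp [f, Pi.single_apply, Finset.sum_apply, ite_and]
    generalize ∑ x, aa x • f x = v at hv
    have m1 : m 1 = 1 := by simp [m]
    gcongr
    · rw [G, Fintype.sum_prod_type, Fintype.sum_option]
      simp only [hv, m1]
      have := Finset.sum_nonneg (s := Finset.univ) fun j _ => m_nn (v (none, j))
      simp only [hk, Finset.sum_const, Finset.card_univ, Fintype.card_fin, nsmul_eq_mul, mul_one]
      linarith
    · rw [G, Fintype.sum_option]
      have e : ∀ i, (k⁻¹ • T v) (some i) = 1 := fun i => by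
        have : (a + 1 : ℝ) ≠ 0 := by positivity
        simp [T, hv, hk, this]
      simp only [e, m1]
      simpa using m_nn _
  refine ⟨MM a b, inferInstance, d, o, N, aa, ⟨d0, fun x y => ⟨fun h => ?_, fun h => h ▸ dxx x⟩,
    fun x y => ?_, fun x y z => ?_⟩, rfl, hN, pos, ?_⟩
  · by_contra e
    linarith [d1 x y e]
  · simp only [d, D]; rw [star_symm, star_symm lf]
  · rw [dq, dq, dq]
    have h1 := star_tri (fun c => c.elim 0 fun _ => 1) (x.map Prod.fst) (y.map Prod.fst)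
      (z.map Prod.fst)
    have h2 := star_tri lf x y z
    have : D x z ≤ D x y + D y z := by unfold D; omega
    exact_mod_cast this
  rw [lt_div_iff₀ pos, one_div]
  refine lt_of_lt_of_le ?_ low
  refine lt_of_le_of_lt (mul_le_mul_of_nonneg_left up (by positivity)) ?_
  rw [← rpow_lt_rpow_iff (by positivity) (hν.nonneg _) hp, mul_rpow (by positivity) (by positivity),
    rpow_inv_rpow (by positivity) hp.ne', ← hA, mul_rpow b0.le (by positivity)]
  refine lt_of_lt_of_le ?_ low2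
  have h1 := sp b b0
  have h2 : (b : ℝ) ^ p * (A * k ^ p) < b := by
    conv_rhs => rw [← h1]
    gcongr
  nlinarith [mul_lt_mul_of_pos_left h2 (by linarith : 0 < A),
    mul_le_mul_of_nonneg_left k1 (by positivity : 0 ≤ A * b)]

end Pool.Agent.Results.MP_31efb7_an.BoundFails
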